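import Mathlib
import Pool.Agent.H.MP_dc3585_lc.A

namespace Pool.Agent.Results.MP_dc3585_lc.Yes

open Cardinal Pool.Agent.H.MP_dc3585_lc

universe u

theorem result (S : Type u) (hS : #S = 2 ^ (2 ^ ℵ₀ : Cardinal.{u})) :
    ∃ C : Finset S → Bool, ∀ A : Set S, #A = ℵ_ 1 → ∀ (i : Bool) (n : ℕ),
      ∃ Y : Finset S, (Y : Set S) ⊆ A ∧ Y.card = n ∧ ∀ T ⊆ Y, T.card = 3 → C T = i := by
  classical
  have hj : Nonempty (S ↪ (ℝ → Bool)) := by
    rw [← Cardinal.lift_mk_le', hS]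
    simp [Cardinal.mk_real]
  obtain ⟨j⟩ := hj
  refine ⟨fun T => decide (Col j WellOrderingRel WellOrderingRel T), fun A hA i n => ?_⟩
  have hA' : ¬ A.Countable := by
    rw [← Cardinal.le_aleph0_iff_set_countable, hA, not_le]
    exact Cardinal.aleph0_lt_aleph_one
  obtain ⟨Y, h1, h2, h3⟩ := main (j := j) (w := WellOrderingRel) (r := WellOrderingRel)
    j.injective A hA' (i = true) n
  refine ⟨Y, h1, h2, fun T hT h => ?_⟩
  have := h3 T hT h
  cases i <;> simpa using this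

end Pool.Agent.Results.MP_dc3585_lc.Yes
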